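import Mathlib

set_option autoImplicit false

open Filter Topology

namespace Pool.Agent.Results.MP_7e65d6_nt.Separation

/-- upper density of `A` relative to `E`: the limsup of `|A ∩ E ∩ [N]| / |E ∩ [N]|` -/
noncomputable def relDens (E A : Set ℕ) : ℝ :=
  limsup (fun N : ℕ => ((A ∩ E ∩ Set.Icc 1 N).ncard : ℝ) / ((E ∩ Set.Icc 1 N).ncard : ℝ)) atTop

/-- `R` is `E`-intersective: it meets `A - A` for every `A ⊆ E` of positive relative upper
density -/
def Intersective (E R : Set ℕ) : Prop :=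
  ∀ A : Set ℕ, A ⊆ E → 0 < relDens E A → ∃ r ∈ R, ∃ a ∈ A, ∃ b ∈ A, (r : ℤ) = (a : ℤ) - (b : ℤ)

/-- `sup_{M ≥ 1} |E ∩ [M, M + N)| / N` -/
noncomputable def window (E : Set ℕ) (N : ℕ) : ℝ :=
  ⨆ M : {M : ℕ // 1 ≤ M}, ((E ∩ Set.Ico M.1 (M.1 + N)).ncard : ℝ) / (N : ℝ)

open Classical in
/-- the elements of `E` in `[1, N]` -/
noncomputable def EN (E : Set ℕ) (N : ℕ) : Finset ℕ := (Finset.Icc 1 N).filter (· ∈ E)

open Classical in
/-- the elements `y` of `E` in `[1, N]` with `y - j h ∈ E` for some `1 ≤ j ≤ K` -/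
noncomputable def bad (E : Set ℕ) (K h N : ℕ) : Finset ℕ :=
  (EN E N).filter (fun y => ∃ j ∈ Finset.Icc 1 K, ∃ x ∈ E, y = x + j * h)

lemma EN_card (E : Set ℕ) (N : ℕ) : (E ∩ Set.Icc 1 N).ncard = (EN E N).card := by
  rw [← Set.ncard_coe_finset]
  congr 1
  ext x
  simp only [EN, Set.mem_inter_iff, Set.mem_Icc, Finset.coe_filter, Finset.mem_Icc,
    Set.mem_ofPred_eq]
  tauto

lemma window_le {E : Set ℕ} {H : ℕ} (hH : 0 < H) (M : ℕ) (hM : 1 ≤ M) :
    ((E ∩ Set.Ico M (M + H)).ncard : ℝ) ≤ window E H * H := by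
  have hb : BddAbove (Set.range fun M : {M : ℕ // 1 ≤ M} =>
      ((E ∩ Set.Ico M.1 (M.1 + H)).ncard : ℝ) / (H : ℝ)) := by
    refine ⟨1, ?_⟩
    rintro _ ⟨M, rfl⟩
    have : (E ∩ Set.Ico M.1 (M.1 + H)).ncard ≤ H := by
      refine (Set.ncard_le_ncard Set.inter_subset_right (Set.finite_Ico _ _)).trans ?_
      rw [← Finset.coe_Ico, Set.ncard_coe_finset]; simp
    rw [div_le_one (by exact_mod_cast hH)]
    exact_mod_cast this
  have := le_ciSup hb ⟨M, hM⟩
  rw [div_le_iff₀ (by exact_mod_cast hH)] at this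
  exact this

open Classical in
lemma fiber_le {E : Set ℕ} (h0 : 0 ∉ E) {H : ℕ} (hH : 0 < H) (L K y j : ℕ) (hj1 : 1 ≤ j)
    (hjK : j ≤ K) :
    (((Finset.Ioc L (L + H)).filter (fun h => ∃ x ∈ E, y = x + j * h)).card : ℝ) ≤
      window E (K * H) * (K * H : ℕ) := by
  have hKH : 0 < K * H := Nat.mul_pos (by omega) hH
  refine le_trans ?_ (window_le hKH (max 1 (y - j * (L + H))) (le_max_left _ _))
  have hfin : (E ∩ Set.Ico (max 1 (y - j * (L + H))) (max 1 (y - j * (L + H)) + K * H)).Finite :=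
    (Set.finite_Ico _ _).subset Set.inter_subset_right
  norm_cast
  rw [← Set.ncard_coe_finset]
  refine Set.ncard_le_ncard_of_injOn (fun h => y - j * h) ?_ ?_ hfin
  · intro h hh
    simp only [Finset.coe_filter, Finset.mem_Ioc, Set.mem_ofPred_eq] at hh
    obtain ⟨⟨h1, h2⟩, x, hx, rfl⟩ := hh
    have hx1 : 1 ≤ x := Nat.one_le_iff_ne_zero.mpr fun h => h0 (h ▸ hx)
    have e1 : j * h ≤ j * (L + H) := Nat.mul_le_mul_left _ h2
    have e2 : j * (L + H) < j * h + K * H := by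
      have : j * (L + 1) ≤ j * h := Nat.mul_le_mul_left _ h1
      have : j * H ≤ K * H := Nat.mul_le_mul_right _ hjK
      nlinarith
    simp only [Nat.add_sub_cancel]
    refine ⟨hx, ?_, ?_⟩
    · exact max_le hx1 (by omega)
    · have := le_max_right 1 (x + j * h - j * (L + H))
      omega
  · intro h hh h' hh' he
    simp only [Finset.coe_filter, Finset.mem_Ioc, Set.mem_ofPred_eq] at hh hh'
    obtain ⟨-, x, -, hx⟩ := hh
    obtain ⟨-, x', -, hx'⟩ := hh'
    have : j * h = j * h' := by simp only at he; omega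
    exact Nat.eq_of_mul_eq_mul_left (by omega) this

lemma avg {E : Set ℕ} (h0 : 0 ∉ E) {H : ℕ} (hH : 0 < H) (L K N : ℕ) :
    ∃ h ∈ Finset.Ioc L (L + H),
      ((bad E K h N).card : ℝ) ≤ (K : ℝ) ^ 2 * window E (K * H) * (EN E N).card := by
  classical
  apply Finset.exists_le_of_sum_le ⟨L + 1, by simp; omega⟩
  have h1 : ∀ h, ((bad E K h N).card : ℝ) ≤ ∑ y ∈ EN E N, ∑ j ∈ Finset.Icc 1 K,
      (if ∃ x ∈ E, y = x + j * h then (1 : ℝ) else 0) := by
    intro h
    rw [bad, Finset.card_filter]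
    push_cast
    refine Finset.sum_le_sum fun y _ => ?_
    split_ifs with hy
    · obtain ⟨j, hj, hx⟩ := hy
      refine le_trans ?_ (Finset.single_le_sum (f := fun j =>
        (if ∃ x ∈ E, y = x + j * h then (1 : ℝ) else 0)) (fun i _ => by positivity) hj)
      simp only [if_pos hx, le_refl]
    · exact Finset.sum_nonneg fun i _ => by positivity
  refine (Finset.sum_le_sum fun h _ => h1 h).trans ?_
  rw [Finset.sum_comm]
  have h2 : ∀ y ∈ EN E N, ∑ h ∈ Finset.Ioc L (L + H), ∑ j ∈ Finset.Icc 1 K,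
      (if ∃ x ∈ E, y = x + j * h then (1 : ℝ) else 0) ≤
      K * (window E (K * H) * (K * H : ℕ)) := by
    intro y _
    rw [Finset.sum_comm]
    refine (Finset.sum_le_sum (g := fun _ => window E (K * H) * (K * H : ℕ)) fun j hj => ?_).trans ?_
    · rw [Finset.mem_Icc] at hj
      refine le_trans (le_of_eq ?_) (fiber_le h0 hH L K y j hj.1 hj.2)
      rw [Finset.card_filter]
      push_cast
      rfl
    · simp
  refine (Finset.sum_le_sum h2).trans (le_of_eq ?_)
  simp
  ring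

/-- the set of `N` for which few elements of `E ∩ [N]` are bad for `(K, h)` -/
def Good (E : Set ℕ) (K h : ℕ) : Set ℕ :=
  {N | ((bad E K h N).card : ℝ) ≤ (1 / 2) ^ (K + 2) * (EN E N).card}

lemma step {E : Set ℕ} (h0 : 0 ∉ E) (hd : Tendsto (window E) atTop (𝓝 0)) (K L : ℕ) :
    ∃ h, L < h ∧ Good E K h ∈ hyperfilter ℕ := by
  obtain ⟨H, hH, hw⟩ : ∃ H, 0 < H ∧ (K : ℝ) ^ 2 * window E (K * H) ≤ (1 / 2) ^ (K + 2) := by
    rcases Nat.eq_zero_or_pos K with rfl | hK
    · exact ⟨1, one_pos, by simp⟩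
    have t1 : Tendsto (fun H : ℕ => (K : ℝ) ^ 2 * window E (K * H)) atTop (𝓝 ((K : ℝ) ^ 2 * 0)) :=
      (hd.comp (tendsto_id.const_mul_atTop' hK)).const_mul _
    rw [mul_zero] at t1
    obtain ⟨H, h1, h2⟩ := ((eventually_gt_atTop 0).and
      (t1.eventually_le_const (by positivity : (0 : ℝ) < (1 / 2) ^ (K + 2)))).exists
    exact ⟨H, h1, h2⟩
  have hU : (⋃ h ∈ ((Finset.Ioc L (L + H) : Finset ℕ) : Set ℕ), Good E K h) ∈ hyperfilter ℕ := by
    refine Filter.univ_mem' fun N => ?_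
    obtain ⟨h, hh, hb⟩ := avg h0 hH L K N
    simp only [Set.mem_iUnion]
    refine ⟨h, hh, hb.trans ?_⟩
    gcongr
  obtain ⟨h, hh, hG⟩ := (Ultrafilter.finite_biUnion_mem_iff (Finset.finite_toSet _)).mp hU
  exact ⟨h, (Finset.mem_Ioc.mp hh).1, hG⟩

lemma seqs {E : Set ℕ} (h0 : 0 ∉ E) (hd : Tendsto (window E) atTop (𝓝 0)) :
    ∃ h N : ℕ → ℕ, StrictMono N ∧ (∀ K, N K < h K) ∧ ∀ i k, k < i → N i ∈ Good E k (h k) := by
  choose hh hL hG using step h0 hd
  have nxt : ∀ (K : ℕ) (p : {p : ℕ × Set ℕ // p.2 ∈ hyperfilter ℕ}),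
      ∃ q : {p : ℕ × Set ℕ // p.2 ∈ hyperfilter ℕ},
        q.1.2 = p.1.2 ∩ Good E K (hh K p.1.1) ∧ q.1.1 ∈ q.1.2 ∧ p.1.1 < q.1.1 := by
    intro K p
    have hS : p.1.2 ∩ Good E K (hh K p.1.1) ∈ hyperfilter ℕ := inter_mem p.2 (hG _ _)
    have hI : Set.Ioi p.1.1 ∈ hyperfilter ℕ := by
      apply mem_hyperfilter_of_finite_compl
      rw [Set.compl_Ioi]
      exact Set.finite_Iic _
    obtain ⟨n, hn1, hn2⟩ := Ultrafilter.nonempty_of_mem (inter_mem hS hI)
    exact ⟨⟨(n, _), hS⟩, rfl, hn1, hn2⟩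
  choose f hf1 hf2 hf3 using nxt
  let s : ℕ → {p : ℕ × Set ℕ // p.2 ∈ hyperfilter ℕ} := fun K =>
    Nat.rec ⟨(0, Set.univ), univ_mem⟩ (fun K p => f K p) K
  have hs : ∀ K, s (K + 1) = f K (s K) := fun K => rfl
  have hanti : Antitone fun K => (s K).1.2 := antitone_nat_of_succ_le fun K => by
    rw [hs, hf1]; exact Set.inter_subset_left
  refine ⟨fun K => hh K (s K).1.1, fun K => (s K).1.1, strictMono_nat_of_lt_succ fun K => ?_,
    fun K => hL _ _, fun i k hk => ?_⟩
  · rw [hs]; exact hf3 _ _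
  · obtain ⟨i, rfl⟩ : ∃ j, i = j + 1 := ⟨i - 1, by omega⟩
    have h1 : (s (i + 1)).1.1 ∈ (s (i + 1)).1.2 := by rw [hs]; exact hf2 _ _
    have h2 := hanti (show k + 1 ≤ i + 1 by omega) h1
    simp only [hs, hf1] at h2
    exact h2.2

lemma ratio_le_one (E A : Set ℕ) (N : ℕ) :
    ((A ∩ E ∩ Set.Icc 1 N).ncard : ℝ) / ((E ∩ Set.Icc 1 N).ncard : ℝ) ≤ 1 := by
  apply div_le_one_of_le₀ _ (by positivity)
  norm_cast
  exact Set.ncard_le_ncard (fun x hx => ⟨hx.1.2, hx.2⟩)
    ((Set.finite_Icc _ _).subset Set.inter_subset_right)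

lemma inter_nat (h : ℕ → ℕ) :
    Intersective {n | 1 ≤ n} {r | ∃ K, ∃ j ∈ Finset.Icc 1 K, r = j * h K} := by
  classical
  intro A hA hpos
  by_contra hno
  push Not at hno
  obtain ⟨K, hK⟩ := exists_nat_one_div_lt hpos
  have hbound : ∀ N : ℕ, (K + 2) * (EN A N).card ≤ N + (K + 1) * h (K + 1) := by
    intro N
    have := Finset.card_le_card_of_injOn (s := Finset.range (K + 2) ×ˢ EN A N)
      (t := Finset.Icc 1 (N + (K + 1) * h (K + 1))) (fun p => p.2 + p.1 * h (K + 1)) ?_ ?_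
    · simpa using this
    · rintro ⟨i, a⟩ hp
      simp only [EN, Finset.coe_product, Set.mem_prod, Finset.mem_coe, Finset.mem_range,
        Finset.mem_filter, Finset.mem_Icc] at hp
      have : i * h (K + 1) ≤ (K + 1) * h (K + 1) := Nat.mul_le_mul_right _ (by omega)
      simp only [Finset.coe_Icc, Set.mem_Icc]
      omega
    · have key : ∀ i i' a a' : ℕ, i < i' → i' < K + 2 → a ∈ A → a' ∈ A →
          a + i * h (K + 1) ≠ a' + i' * h (K + 1) := by
        intro i i' a a' hi hi' ha ha' he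
        obtain ⟨j, rfl⟩ : ∃ j, i' = i + j := ⟨i' - i, by omega⟩
        refine hno (j * h (K + 1)) ⟨K + 1, j, Finset.mem_Icc.mpr ⟨by omega, by omega⟩, rfl⟩
          a ha a' ha' ?_
        have : a = a' + j * h (K + 1) := by nlinarith
        rw [this]; push_cast; ring
      rintro ⟨i, a⟩ hp ⟨i', a'⟩ hp' he
      simp only [EN, Finset.coe_product, Set.mem_prod, Finset.mem_coe, Finset.mem_range,
        Finset.mem_filter, Finset.mem_Icc] at hp hp' he
      rcases lt_trichotomy i i' with hlt | rfl | hlt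
      · exact absurd he (key _ _ _ _ hlt hp'.1 hp.2.2 hp'.2.2)
      · have : a = a' := by omega
        rw [this]
      · exact absurd he.symm (key _ _ _ _ hlt hp.1 hp'.2.2 hp.2.2)
  have hle : relDens {n | 1 ≤ n} A ≤ 1 / ((K : ℝ) + 1) := by
    refine limsup_le_of_le (isCoboundedUnder_le_of_le _ (x := 0) fun N => by positivity) ?_
    filter_upwards [eventually_ge_atTop ((K + 1) * (K + 1) * h (K + 1) + 1)] with N hN
    have e1 : A ∩ {n | 1 ≤ n} = A := Set.inter_eq_left.mpr hA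
    have e2 : ({n | 1 ≤ n} ∩ Set.Icc 1 N : Set ℕ).ncard = N := by
      have : ({n | 1 ≤ n} ∩ Set.Icc 1 N : Set ℕ) = Set.Icc 1 N :=
        Set.inter_eq_right.mpr fun x hx => hx.1
      rw [this, ← Finset.coe_Icc, Set.ncard_coe_finset]; simp
    rw [e1, e2, EN_card, div_le_div_iff₀ (by norm_cast; omega) (by positivity)]
    have hb := hbound N
    have : (EN A N).card * (K + 1) ≤ 1 * N := by
      have : (K + 2) * ((EN A N).card * (K + 1)) ≤ (K + 2) * N := by nlinarith
      have := Nat.le_of_mul_le_mul_left this (by omega)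
      omega
    exact_mod_cast this
  linarith

/-- For every infinite `E ⊆ ℕ = {1, 2, …}` of upper Banach density zero some intersective set is
not `E`-intersective. -/
theorem result (E : Set ℕ) (h0 : 0 ∉ E) (hinf : E.Infinite)
    (hd : Tendsto (window E) atTop (𝓝 0)) :
    ∃ R : Set ℕ, 0 ∉ R ∧ Intersective {n | 1 ≤ n} R ∧ ¬ Intersective E R := by
  classical
  obtain ⟨h, N, hN, hNh, hG⟩ := seqs h0 hd
  refine ⟨{r | ∃ K, ∃ j ∈ Finset.Icc 1 K, r = j * h K}, ?_, inter_nat h, fun hI => ?_⟩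
  · rintro ⟨K, j, hj, he⟩
    have := hNh K
    have := (Finset.mem_Icc.mp hj).1
    have : 0 < j * h K := Nat.mul_pos (by omega) (by omega)
    omega
  set A : Set ℕ := {y | y ∈ E ∧ ∀ K, ∀ j ∈ Finset.Icc 1 K, ∀ x ∈ E, y ≠ x + j * h K} with hA
  have hAE : A ⊆ E := fun y hy => hy.1
  have hpos : 0 < relDens E A := by
    refine lt_of_lt_of_le (by norm_num : (0 : ℝ) < 1 / 2) ?_
    refine le_limsup_of_frequently_le ?_ (isBoundedUnder_of ⟨1, fun n => ratio_le_one E A n⟩)
    obtain ⟨e, he⟩ := hinf.nonempty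
    refine (hN.tendsto_atTop.frequently (Eventually.frequently ?_))
    filter_upwards [eventually_ge_atTop e] with i hi
    have hepos : 0 < (EN E (N i)).card := by
      refine Finset.card_pos.mpr ⟨e, ?_⟩
      have : 1 ≤ e := Nat.one_le_iff_ne_zero.mpr fun h => h0 (h ▸ he)
      have := hN.id_le i
      simp only [EN, Finset.mem_filter, Finset.mem_Icc]
      exact ⟨⟨by omega, by simp only [id] at this; omega⟩, he⟩
    rw [Set.inter_eq_left.mpr hAE, EN_card, EN_card, le_div_iff₀ (by exact_mod_cast hepos)]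
    have hsub : EN E (N i) ⊆ EN A (N i) ∪ (Finset.range i).biUnion fun k => bad E k (h k) (N i) := by
      intro y hy
      by_cases hyA : y ∈ A
      · refine Finset.mem_union_left _ ?_
        simp only [EN, Finset.mem_filter] at hy ⊢
        exact ⟨hy.1, hyA⟩
      · refine Finset.mem_union_right _ ?_
        have hy' := hy
        simp only [EN, Finset.mem_filter, Finset.mem_Icc] at hy'
        simp only [hA, Set.mem_ofPred_eq, hy'.2, true_and, not_forall, not_not] at hyA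
        obtain ⟨K, j, hj, x, hx, hxy⟩ := hyA
        refine Finset.mem_biUnion.mpr ⟨K, Finset.mem_range.mpr ?_, ?_⟩
        · by_contra hK
          have h1 := hN.monotone (show i ≤ K by omega)
          have h2 := hNh K
          have h3 : 1 * h K ≤ j * h K := Nat.mul_le_mul_right _ (Finset.mem_Icc.mp hj).1
          omega
        · simp only [bad, Finset.mem_filter]
          exact ⟨hy, j, hj, x, hx, hxy⟩
    have h1 : ((EN E (N i)).card : ℝ) ≤ (EN A (N i)).card +
        ∑ k ∈ Finset.range i, ((bad E k (h k) (N i)).card : ℝ) := by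
      have := (Finset.card_le_card hsub).trans ((Finset.card_union_le _ _).trans
        (Nat.add_le_add_left Finset.card_biUnion_le _))
      exact_mod_cast this
    have h2 : ∑ k ∈ Finset.range i, ((bad E k (h k) (N i)).card : ℝ) ≤
        ∑ k ∈ Finset.range i, (1 / 2 : ℝ) ^ (k + 2) * (EN E (N i)).card :=
      Finset.sum_le_sum fun k hk => hG i k (Finset.mem_range.mp hk)
    have h3 : ∑ k ∈ Finset.range i, (1 / 2 : ℝ) ^ (k + 2) ≤ 1 / 2 := by
      have := sum_le_hasSum (Finset.range i) (fun k _ => by positivity) hasSum_geometric_two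
      simp only [pow_add, ← Finset.sum_mul]
      linarith
    rw [← Finset.sum_mul] at h2
    have h4 : (0 : ℝ) ≤ (EN E (N i)).card := by positivity
    nlinarith
  obtain ⟨r, ⟨K, j, hj, rfl⟩, a, ha, b, hb, he⟩ := hI A hAE hpos
  refine ha.2 K j hj b hb.1 ?_
  omega

end Pool.Agent.Results.MP_7e65d6_nt.Separation
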